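import Mathlib

/-!
# The finite certificate for cube-free subsets of `{1, ..., 24}`

Weights `wt 1, ..., wt 24` of total 2780; every set `J` of naturals containing no projective
3-cube has weight at most 1697.  It is checked by a small search over a list of cubes.
-/

set_option autoImplicit false

namespace Pool.Agent.H45.CubeCert

/-- The seven subset sums of `a, b, c`. -/
def L (a b c : ℕ) : List ℕ := [a, b, c, a + b, a + c, b + c, a + b + c]

/-- The weights. -/
def wtL : List ℕ := [0, 168, 215, 215, 171, 109, 231, 129, 150, 150, 98, 76, 160, 74, 102, 66, 100, 42, 114, 66, 69, 113, 40, 72, 50]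

/-- The weight of `w`. -/
def wt (w : ℕ) : ℕ := wtL.getD w 0

/-- The list of cubes used in the search. -/
def cubeL : List (ℕ × ℕ × ℕ) := [(2, 2, 2), (4, 4, 4), (4, 4, 14), (4, 10, 4), (6, 4, 4), (1, 1, 6), (1, 5, 1), (2, 7, 2), (2, 5, 2), (1, 1, 7), (3, 2, 2), (7, 7, 4), (1, 1, 1), (7, 7, 7), (7, 2, 7), (12, 2, 2), (2, 10, 2), (5, 7, 2), (7, 1, 7), (4, 7, 3), (12, 1, 1), (6, 6, 2), (6, 6, 4), (6, 6, 6), (6, 1, 6), (3, 1, 3), (7, 6, 7), (3, 3, 3), (7, 9, 7), (7, 7, 5), (7, 3, 7), (2, 3, 3), (3, 3, 8), (3, 3, 7), (3, 5, 3), (3, 18, 3), (3, 15, 3), (5, 5, 2), (1, 11, 1), (8, 8, 6), (5, 5, 4), (4, 1, 4), (5, 5, 7), (9, 6, 6), (5, 5, 3), (8, 1, 1), (5, 5, 5), (19, 1, 1), (8, 8, 5), (8, 8, 8), (8, 8, 7), (1, 9, 9), (3, 8, 8), (9, 9, 2), (9, 9, 3), (9, 9, 5), (4, 4, 13), (10, 10, 1), (4, 9, 9), (10, 10, 2), (2, 19, 2), (3, 12, 9), (6, 9, 9), (5, 5, 6), (3, 1, 12), (3, 10, 10), (4, 5, 7), (2, 2, 16), (1, 11, 11), (4, 1, 16), (3, 3, 16), (4, 1, 19), (3, 13, 3), (3, 1, 11), (5, 5, 14), (1, 1, 17), (6, 6,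 11), (3, 3, 14), (2, 2, 13), (8, 7, 7), (3, 5, 15), (9, 8, 5), (6, 6, 7), (2, 9, 2), (3, 8, 7), (2, 5, 17), (1, 12, 11), (3, 9, 7), (3, 2, 17), (8, 8, 2), (2, 11, 11), (3, 12, 8), (1, 4, 15), (3, 1, 15), (1, 1, 15), (4, 4, 15)]

/-- Branch over the elements of a cube: the first element not in `J` is `e`. -/
def branch (k : List ℕ → List ℕ → ℕ → Bool) : List ℕ → List ℕ → List ℕ → ℕ → Bool
  | [], _, _, _ => true
  | e :: es, ins, outs, ow =>
    if ins.elem e then branch k es ins outs ow
    else k ins (e :: outs) (ow + wt e) && branch k es (e :: ins) outs ow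

/-- The search. -/
def go : List (ℕ × ℕ × ℕ) → List ℕ → List ℕ → ℕ → Bool
  | [], _, _, ow => Nat.ble 1083 ow
  | (a, b, c) :: cs, ins, outs, ow =>
    if Nat.ble 1083 ow then true
    else if (L a b c).any (fun e => outs.elem e) then go cs ins outs ow
    else branch (go cs) (L a b c) ins outs ow

theorem go_cubeL : go cubeL [] [] 0 = true := by decide +kernel


/-- The weight missing from `J`. -/
def missing (J : ℕ → Bool) : ℕ := ∑ w ∈ Finset.range 25, if J w then 0 else wt w

/-- `outs` is a duplicate-free list of elements outside `J`, of total weight `ow`. -/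
structure Inv (J : ℕ → Bool) (ins outs : List ℕ) (ow : ℕ) : Prop where
  ins_mem : ∀ e ∈ ins, J e = true
  outs_mem : ∀ e ∈ outs, J e = false
  nodup : outs.Nodup
  weight : ow = (outs.map wt).sum

lemma wt_eq_zero {w : ℕ} (h : 25 ≤ w) : wt w = 0 := by
  unfold wt
  apply List.getD_eq_default
  simpa [wtL] using h

lemma Inv.le_missing {J : ℕ → Bool} {ins outs : List ℕ} {ow : ℕ} (h : Inv J ins outs ow) :
    ow ≤ missing J := by
  have h1 : (outs.map wt).sum = ∑ w ∈ outs.toFinset, wt w := by
    rw [List.sum_toFinset _ h.nodup]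
  have h2 : ∑ w ∈ outs.toFinset, wt w = ∑ w ∈ outs.toFinset, if J w then 0 else wt w := by
    refine Finset.sum_congr rfl fun w hw => ?_
    rw [h.outs_mem w (List.mem_toFinset.mp hw)]
    simp
  have h3 : ∑ w ∈ outs.toFinset, (if J w then 0 else wt w) =
      ∑ w ∈ outs.toFinset.filter (fun w => w < 25), if J w then 0 else wt w := by
    rw [Finset.sum_filter]
    refine Finset.sum_congr rfl fun w _ => ?_
    by_cases hw : w < 25
    · simp [hw]
    · have : wt w = 0 := wt_eq_zero (not_lt.mp hw)
      simp [this]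
  rw [h.weight, h1, h2, h3]
  apply Finset.sum_le_sum_of_subset
  intro w hw
  rw [Finset.mem_filter] at hw
  exact Finset.mem_range.mpr hw.2

lemma branch_sound {J : ℕ → Bool} {k : List ℕ → List ℕ → ℕ → Bool} {outs : List ℕ} {ow : ℕ}
    (hk : ∀ ins outs ow, Inv J ins outs ow → k ins outs ow = true → 1083 ≤ missing J) :
    ∀ (es ins : List ℕ), Inv J ins outs ow → (∀ e ∈ es, e ∉ outs) → (∃ e ∈ es, J e = false) →
      branch k es ins outs ow = true → 1083 ≤ missing J := by
  intro es
  induction es with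
  | nil =>
    rintro ins - - ⟨e, he, -⟩ -
    exact absurd he (List.not_mem_nil)
  | cons e es ih =>
    intro ins hinv hout hex hb
    rw [branch] at hb
    by_cases hmem : ins.elem e = true
    · rw [if_pos hmem] at hb
      have hJ : J e = true := hinv.ins_mem e (List.elem_iff.mp hmem)
      refine ih ins hinv (fun x hx => hout x (List.mem_cons_of_mem _ hx)) ?_ hb
      obtain ⟨x, hx, hxJ⟩ := hex
      rcases List.mem_cons.mp hx with rfl | hx
      · rw [hJ] at hxJ
        exact absurd hxJ (by decide)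
      · exact ⟨x, hx, hxJ⟩
    · rw [if_neg hmem, Bool.and_eq_true] at hb
      cases hJ : J e
      · refine hk ins (e :: outs) (ow + wt e) ⟨hinv.ins_mem, ?_, ?_, ?_⟩ hb.1
        · intro x hx
          rcases List.mem_cons.mp hx with rfl | hx
          · exact hJ
          · exact hinv.outs_mem x hx
        · exact List.nodup_cons.mpr ⟨hout e List.mem_cons_self, hinv.nodup⟩
        · rw [List.map_cons, List.sum_cons, ← hinv.weight, add_comm]
      · refine ih (e :: ins) ⟨?_, hinv.outs_mem, hinv.nodup, hinv.weight⟩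
          (fun x hx => hout x (List.mem_cons_of_mem _ hx)) ?_ hb.2
        · intro x hx
          rcases List.mem_cons.mp hx with rfl | hx
          · exact hJ
          · exact hinv.ins_mem x hx
        · obtain ⟨x, hx, hxJ⟩ := hex
          rcases List.mem_cons.mp hx with rfl | hx
          · rw [hJ] at hxJ
            exact absurd hxJ (by decide)
          · exact ⟨x, hx, hxJ⟩

lemma go_sound {J : ℕ → Bool} (hJ : ∀ a b c, ∃ e ∈ L a b c, J e = false) :
    ∀ (cs : List (ℕ × ℕ × ℕ)) (ins outs : List ℕ) (ow : ℕ), Inv J ins outs ow →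
      go cs ins outs ow = true → 1083 ≤ missing J := by
  intro cs
  induction cs with
  | nil =>
    intro ins outs ow hinv hg
    rw [go] at hg
    exact (Nat.le_of_ble_eq_true hg).trans hinv.le_missing
  | cons abc cs ih =>
    obtain ⟨a, b, c⟩ := abc
    intro ins outs ow hinv hg
    rw [go] at hg
    by_cases h1 : Nat.ble 1083 ow = true
    · exact (Nat.le_of_ble_eq_true h1).trans hinv.le_missing
    · rw [if_neg h1] at hg
      by_cases h2 : (L a b c).any (fun e => outs.elem e) = true
      · rw [if_pos h2] at hg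
        exact ih ins outs ow hinv hg
      · rw [if_neg h2] at hg
        refine branch_sound ih (L a b c) ins hinv ?_ (hJ a b c) hg
        intro e he heo
        apply h2
        rw [List.any_eq_true]
        exact ⟨e, he, List.elem_iff.mpr heo⟩

/-- **The certificate**: a set of naturals with no projective 3-cube has weight at most 1697. -/
theorem weight_le {J : ℕ → Bool} (hJ : ∀ a b c, ∃ e ∈ L a b c, J e = false) :
    ∑ w ∈ Finset.range 25, (if J w then wt w else 0) ≤ 1697 := by
  have h1 : 1083 ≤ missing J :=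
    go_sound hJ cubeL [] [] 0 ⟨by simp, by simp, List.nodup_nil, rfl⟩ go_cubeL
  have h2 : ∑ w ∈ Finset.range 25, (if J w then wt w else 0) + missing J =
      ∑ w ∈ Finset.range 25, wt w := by
    unfold missing
    rw [← Finset.sum_add_distrib]
    refine Finset.sum_congr rfl fun w _ => ?_
    cases J w <;> simp
  have h3 : ∑ w ∈ Finset.range 25, wt w = 2780 := by decide
  omega

end Pool.Agent.H45.CubeCert
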