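import Mathlib
import Pool.Agent.H45.CubeCert

/-!
# Sets without projective 3-cubes in `ZMod (2 ^ n)`: the upper bound
-/

set_option autoImplicit false

open Finset

namespace Pool.Agent.H45.CubeMain

open Pool.Agent.H45.CubeCert

/-! ### Sums over `ZMod` -/

lemma sum_zmod (N : ℕ) [NeZero N] (g : ZMod N → ℕ) :
    ∑ z : ZMod N, g z = ∑ k ∈ range N, g (k : ZMod N) := by
  refine Finset.sum_bij' (fun z _ => z.val) (fun k _ => (k : ZMod N)) ?_ ?_ ?_ ?_ ?_
  · intro z _
    exact mem_range.mpr z.val_lt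
  · intro k _
    exact mem_univ _
  · intro z _
    exact ZMod.natCast_zmod_val z
  · intro k hk
    exact ZMod.val_cast_of_lt (mem_range.mp hk)
  · intro z _
    rw [ZMod.natCast_zmod_val]

lemma sum_range_two_mul (M : ℕ) (h : ℕ → ℕ) :
    ∑ k ∈ range (2 * M), h k = ∑ k ∈ range M, h (2 * k) + ∑ k ∈ range M, h (2 * k + 1) := by
  induction M with
  | zero => simp
  | succ M ih =>
    rw [Nat.mul_succ, sum_range_succ, sum_range_succ, ih, sum_range_succ, sum_range_succ]
    ring

variable {n : ℕ}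

/-- `2 ^ (n + 1)` residues. -/
abbrev R (n : ℕ) := ZMod (2 ^ (n + 1))

instance : NeZero (2 ^ (n + 1)) := ⟨by positivity⟩

lemma sum_all (g : R n → ℕ) :
    ∑ z : R n, g z = ∑ k ∈ range (2 ^ n), g (2 * (k : R n)) +
      ∑ k ∈ range (2 ^ n), g (2 * (k : R n) + 1) := by
  have hr : range (2 ^ (n + 1)) = range (2 * 2 ^ n) := by rw [pow_succ, mul_comm]
  rw [sum_zmod, hr, sum_range_two_mul]
  push_cast
  rfl

lemma two_pow_eq_zero : (2 : R n) * ((2 ^ n : ℕ) : R n) = 0 := by
  have h : ((2 ^ (n + 1) : ℕ) : R n) = 0 := ZMod.natCast_self _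
  push_cast at h ⊢
  rw [← h]
  ring

lemma sum_double (g : R n → ℕ) :
    ∑ z : R n, g (2 * z) = 2 * ∑ k ∈ range (2 ^ n), g (2 * (k : R n)) := by
  have hr : range (2 ^ (n + 1)) = range (2 ^ n + 2 ^ n) := by rw [pow_succ, mul_two]
  rw [sum_zmod, hr, sum_range_add, two_mul]
  congr 1
  refine sum_congr rfl fun k _ => ?_
  congr 1
  push_cast
  rw [mul_add]
  have h := two_pow_eq_zero (n := n)
  push_cast at h
  rw [h, zero_add]

lemma isUnit_natCast (k : ℕ) : IsUnit ((k : ℕ) : R n) ↔ k % 2 = 1 := by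
  rw [ZMod.isUnit_iff_coprime, Nat.coprime_pow_right_iff (Nat.succ_pos n),
    Nat.coprime_two_right, Nat.odd_iff]

lemma sum_units (g : R n → ℕ) :
    ∑ u : (R n)ˣ, g u = ∑ k ∈ range (2 ^ n), g (2 * (k : R n) + 1) := by
  classical
  have h1 : ∑ u : (R n)ˣ, g u = ∑ z : R n, if IsUnit z then g z else 0 := by
    rw [← sum_filter]
    refine Finset.sum_bij (fun u _ => (u : R n)) ?_ ?_ ?_ ?_
    · intro u _
      exact mem_filter.mpr ⟨mem_univ _, u.isUnit⟩
    · intro u _ v _ h
      exact Units.ext h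
    · intro z hz
      obtain ⟨u, hu⟩ := (mem_filter.mp hz).2
      exact ⟨u, mem_univ _, hu⟩
    · intro u _
      rfl
  rw [h1, sum_all]
  have h2 : ∀ k : ℕ, ¬ IsUnit (2 * (k : R n)) := fun k => by
    have := isUnit_natCast (n := n) (2 * k)
    push_cast at this
    rw [this]
    omega
  have h3 : ∀ k : ℕ, IsUnit (2 * (k : R n) + 1) := fun k => by
    have := isUnit_natCast (n := n) (2 * k + 1)
    push_cast at this
    rw [this]
    omega
  simp only [h2, h3, if_true, if_false, sum_const_zero, zero_add]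

/-- Splitting into odd and even residues. -/
lemma split (g : R n → ℕ) :
    2 * ∑ z : R n, g z = 2 * ∑ u : (R n)ˣ, g u + ∑ z : R n, g (2 * z) := by
  rw [sum_all, sum_double, sum_units]
  ring

lemma card_units : Fintype.card (R n)ˣ = 2 ^ n := by
  have h := sum_units (n := n) (fun _ => 1)
  simpa using h

/-- Dilation by an odd number. -/
lemma sum_dilate (g : R n → ℕ) (v : ℕ) (hv : v % 2 = 1) :
    ∑ u : (R n)ˣ, g ((v : R n) * u) = ∑ u : (R n)ˣ, g u := by
  obtain ⟨w, hw⟩ := (isUnit_natCast (n := n) v).mpr hv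
  rw [← hw]
  exact Fintype.sum_equiv (Equiv.mulLeft w) _ _ (fun u => by simp)

/-! ### Cube-free functions -/

/-- `f` is the indicator function of a set without projective 3-cube. -/
structure CF (f : R n → ℕ) : Prop where
  le_one : ∀ x, f x ≤ 1
  free : ∀ a b c, f a = 0 ∨ f b = 0 ∨ f c = 0 ∨ f (a + b) = 0 ∨ f (a + c) = 0 ∨ f (b + c) = 0 ∨
    f (a + b + c) = 0

lemma CF.zero {f : R n → ℕ} (h : CF f) : f 0 = 0 := by
  have := h.free 0 0 0
  simpa using this

/-- `S i` is the sum of `f (2 ^ i * u)` over the odd residues `u`. -/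
def S (f : R n → ℕ) (i : ℕ) : ℕ := ∑ u : (R n)ˣ, f (2 ^ i * (u : R n))

/-- `T i` is the sum of `f (2 ^ i * z)` over all residues `z`. -/
def T (f : R n → ℕ) (i : ℕ) : ℕ := ∑ z : R n, f (2 ^ i * z)

lemma T_split (f : R n → ℕ) (i : ℕ) : 2 * T f i = 2 * S f i + T f (i + 1) := by
  unfold T S
  rw [split (fun z => f (2 ^ i * z))]
  congr 1
  refine sum_congr rfl fun z _ => ?_
  congr 1
  ring

lemma sum_mul (f : R n → ℕ) (i v : ℕ) (hv : v % 2 = 1) :
    ∑ u : (R n)ˣ, f (((2 ^ i * v : ℕ) : R n) * u) = S f i := by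
  unfold S
  rw [← sum_dilate (fun z => f (2 ^ i * z)) v hv]
  refine sum_congr rfl fun u _ => ?_
  congr 1
  push_cast
  ring

/-! ### The elementary inequalities -/

/-- From the cubes `{x, 2x, 3x}`. -/
lemma ineq_123 {f : R n → ℕ} (h : CF f) : 2 * S f 0 + S f 1 ≤ 2 * 2 ^ n := by
  have h1 := sum_mul f 0 1 rfl
  have h2 := sum_mul f 1 1 rfl
  have h3 := sum_mul f 0 3 rfl
  calc 2 * S f 0 + S f 1 = ∑ u : (R n)ˣ, (f (((2 ^ 0 * 1 : ℕ) : R n) * u) +
        f (((2 ^ 0 * 3 : ℕ) : R n) * u) + f (((2 ^ 1 * 1 : ℕ) : R n) * u)) := by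
        rw [sum_add_distrib, sum_add_distrib, h1, h2, h3]
        ring
    _ ≤ ∑ _u : (R n)ˣ, 2 := by
        refine sum_le_sum fun u _ => ?_
        have h4 := h.free (u : R n) u u
        have h5 := h.le_one (((2 ^ 0 * 1 : ℕ) : R n) * u)
        have h6 := h.le_one (((2 ^ 0 * 3 : ℕ) : R n) * u)
        have h7 := h.le_one (((2 ^ 1 * 1 : ℕ) : R n) * u)
        have e1 : (u : R n) + u = ((2 ^ 1 * 1 : ℕ) : R n) * u := by
          push_cast
          ring
        have e2 : (u : R n) + u + u = ((2 ^ 0 * 3 : ℕ) : R n) * u := by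
          push_cast
          ring
        have e3 : (u : R n) = ((2 ^ 0 * 1 : ℕ) : R n) * u := by
          push_cast
          ring
        rw [e2, e1] at h4
        rw [e3] at h4
        simp only [pow_zero, mul_one, Nat.cast_one, one_mul] at h4 h5 h6 h7 ⊢
        omega
    _ = 2 * 2 ^ n := by
        rw [sum_const, card_univ, card_units, smul_eq_mul, mul_comm]

/-- If more than three quarters of the odd residues are in the set, at most half of the multiples
of four are. -/
lemma T_two_le {f : R n → ℕ} (h : CF f) (hS : 3 * 2 ^ n < 4 * S f 0) : 2 * T f 2 ≤ 2 * 2 ^ n := by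
  by_cases h0 : T f 2 = 0
  · rw [h0]
    positivity
  · obtain ⟨z₀, -, hz₀⟩ : ∃ z ∈ (univ : Finset (R n)), f (2 ^ 2 * z) ≠ 0 := by
      by_contra hcon
      push Not at hcon
      exact h0 (sum_eq_zero hcon)
    -- no `z` with both `f (4 z)` and `f (4 (z + z₀))` nonzero
    have key : ∀ z : R n, f (2 ^ 2 * z) + f (2 ^ 2 * (z + z₀)) ≤ 1 := by
      intro z
      by_contra hcon
      have hs1 := h.le_one (2 ^ 2 * z)
      have hs2 := h.le_one (2 ^ 2 * (z + z₀))
      have hz1 : f (2 ^ 2 * z) ≠ 0 := by omega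
      have hz2 : f (2 ^ 2 * (z + z₀)) ≠ 0 := by omega
      -- the four sums over odd residues
      have hneg : ∑ k ∈ range (2 ^ n), f (2 * (k : R n) + 1) = S f 0 := by
        rw [← sum_units]
        unfold S
        simp
      -- for an even residue `t`, the sums of `f (u + t)` and `f (t - u)` equal `S f 0`
      have hshift : ∀ t : R n, ∑ u : (R n)ˣ, f ((u : R n) + 2 * t) = S f 0 := by
        intro t
        have hA := split f
        have hB := split (fun x => f (x + 2 * t))
        have hC : ∑ z : R n, f (z + 2 * t) = ∑ z : R n, f z :=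
          Fintype.sum_equiv (Equiv.addRight (2 * t)) _ _ (fun _ => rfl)
        have hD : ∑ z : R n, f (2 * z + 2 * t) = ∑ z : R n, f (2 * z) :=
          Fintype.sum_equiv (Equiv.addRight t) _ _ (fun z => by
            simp only [Equiv.coe_addRight]
            congr 1
            ring)
        rw [hC, hD] at hB
        have hE : S f 0 = ∑ u : (R n)ˣ, f u := by
          unfold S
          simp
        rw [hE]
        omega
      have hrefl : ∀ t : R n, ∑ u : (R n)ˣ, f (2 * t - (u : R n)) = S f 0 := by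
        intro t
        rw [← hshift t]
        refine Fintype.sum_equiv (Equiv.neg _) _ _ (fun u => ?_)
        simp only [Equiv.neg_apply, Units.val_neg]
        congr 1
        ring
      have h1 := hshift 0
      have h2 := hrefl (2 * z)
      have h3 := hshift (2 * z₀)
      have h4 := hrefl (2 * (z + z₀))
      have hsum : ∑ u : (R n)ˣ, (f ((u : R n) + 2 * 0) + f (2 * (2 * z) - (u : R n)) +
          f ((u : R n) + 2 * (2 * z₀)) + f (2 * (2 * (z + z₀)) - (u : R n))) ≤
          ∑ _u : (R n)ˣ, 3 := by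
        refine sum_le_sum fun u _ => ?_
        have h5 := h.free (u : R n) (2 * (2 * z) - u) (2 ^ 2 * z₀)
        have e1 : (u : R n) + (2 * (2 * z) - u) = 2 ^ 2 * z := by ring
        have e2 : (u : R n) + 2 ^ 2 * z₀ = u + 2 * (2 * z₀) := by ring
        have e3 : 2 * (2 * z) - (u : R n) + 2 ^ 2 * z₀ = 2 * (2 * (z + z₀)) - u := by ring
        have e4 : 2 ^ 2 * z + 2 ^ 2 * z₀ = 2 ^ 2 * (z + z₀) := by ring
        have e5 : (u : R n) + 2 * 0 = u := by ring
        rw [e1, e4, e2, e3] at h5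
        rw [e5]
        have b1 := h.le_one (u : R n)
        have b2 := h.le_one (2 * (2 * z) - (u : R n))
        have b3 := h.le_one ((u : R n) + 2 * (2 * z₀))
        have b4 := h.le_one (2 * (2 * (z + z₀)) - (u : R n))
        omega
      rw [sum_add_distrib, sum_add_distrib, sum_add_distrib, h1, h2, h3, h4, sum_const,
        card_univ, card_units, smul_eq_mul] at hsum
      omega
    have hT : ∑ z : R n, f (2 ^ 2 * (z + z₀)) = T f 2 :=
      Fintype.sum_equiv (Equiv.addRight z₀) _ _ (fun _ => rfl)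
    have hsum : ∑ z : R n, (f (2 ^ 2 * z) + f (2 ^ 2 * (z + z₀))) ≤ ∑ _z : R n, 1 :=
      sum_le_sum fun z _ => key z
    rw [sum_add_distrib, hT, sum_const, card_univ, ZMod.card, smul_eq_mul, mul_one] at hsum
    have hT' : ∑ z : R n, f (2 ^ 2 * z) = T f 2 := rfl
    rw [hT', pow_succ] at hsum
    omega

/-! ### The certificate inequality -/

lemma cert_unit {f : R n → ℕ} (h : CF f) (u : (R n)ˣ) :
    ∑ w ∈ range 25, wt w * f (((w : ℕ) : R n) * u) ≤ 1697 := by
  have hJ : ∀ a b c, ∃ e ∈ L a b c, (fun w : ℕ => decide (f (((w : ℕ) : R n) * u) ≠ 0)) e = false := by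
    intro a b c
    have h1 := h.free (((a : ℕ) : R n) * u) (((b : ℕ) : R n) * u) (((c : ℕ) : R n) * u)
    have e1 : ((a : ℕ) : R n) * u + ((b : ℕ) : R n) * u = (((a + b : ℕ) : ℕ) : R n) * u := by
      push_cast
      ring
    have e2 : ((a : ℕ) : R n) * u + ((c : ℕ) : R n) * u = (((a + c : ℕ) : ℕ) : R n) * u := by
      push_cast
      ring
    have e3 : ((b : ℕ) : R n) * u + ((c : ℕ) : R n) * u = (((b + c : ℕ) : ℕ) : R n) * u := by
      push_cast
      ring
    have e4 : ((a : ℕ) : R n) * u + ((b : ℕ) : R n) * u + ((c : ℕ) : R n) * u =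
        (((a + b + c : ℕ) : ℕ) : R n) * u := by
      push_cast
      ring
    rw [e4, e1, e2, e3] at h1
    simp only [L, List.mem_cons, List.not_mem_nil, or_false, exists_eq_or_imp, exists_eq_left,
      decide_eq_false_iff_not, not_not]
    exact h1
  have h2 := weight_le hJ
  refine le_trans (sum_le_sum fun w _ => ?_) h2
  have h3 := h.le_one (((w : ℕ) : R n) * u)
  by_cases h4 : f (((w : ℕ) : R n) * u) = 0
  · simp [h4]
  · have h5 : f (((w : ℕ) : R n) * u) = 1 := by omega
    simp [h5]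

lemma cert {f : R n → ℕ} (h : CF f) :
    1280 * S f 0 + 800 * S f 1 + 400 * S f 2 + 200 * S f 3 + 100 * S f 4 ≤ 1697 * 2 ^ n := by
  have h1 : ∑ w ∈ range 25, wt w * ∑ u : (R n)ˣ, f (((w : ℕ) : R n) * u) ≤ 1697 * 2 ^ n := by
    calc ∑ w ∈ range 25, wt w * ∑ u : (R n)ˣ, f (((w : ℕ) : R n) * u)
        = ∑ u : (R n)ˣ, ∑ w ∈ range 25, wt w * f (((w : ℕ) : R n) * u) := by
          rw [sum_comm]
          refine sum_congr rfl fun w _ => ?_
          rw [mul_sum]
      _ ≤ ∑ _u : (R n)ˣ, 1697 := sum_le_sum fun u _ => cert_unit h u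
      _ = 1697 * 2 ^ n := by
          rw [sum_const, card_univ, card_units, smul_eq_mul, mul_comm]
  have s1 : ∑ u : (R n)ˣ, f (((1 : ℕ) : R n) * u) = S f 0 := sum_mul f 0 1 rfl
  have s2 : ∑ u : (R n)ˣ, f (((2 : ℕ) : R n) * u) = S f 1 := sum_mul f 1 1 rfl
  have s3 : ∑ u : (R n)ˣ, f (((3 : ℕ) : R n) * u) = S f 0 := sum_mul f 0 3 rfl
  have s4 : ∑ u : (R n)ˣ, f (((4 : ℕ) : R n) * u) = S f 2 := sum_mul f 2 1 rfl
  have s5 : ∑ u : (R n)ˣ, f (((5 : ℕ) : R n) * u) = S f 0 := sum_mul f 0 5 rfl
  have s6 : ∑ u : (R n)ˣ, f (((6 : ℕ) : R n) * u) = S f 1 := sum_mul f 1 3 rfl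
  have s7 : ∑ u : (R n)ˣ, f (((7 : ℕ) : R n) * u) = S f 0 := sum_mul f 0 7 rfl
  have s8 : ∑ u : (R n)ˣ, f (((8 : ℕ) : R n) * u) = S f 3 := sum_mul f 3 1 rfl
  have s9 : ∑ u : (R n)ˣ, f (((9 : ℕ) : R n) * u) = S f 0 := sum_mul f 0 9 rfl
  have s10 : ∑ u : (R n)ˣ, f (((10 : ℕ) : R n) * u) = S f 1 := sum_mul f 1 5 rfl
  have s11 : ∑ u : (R n)ˣ, f (((11 : ℕ) : R n) * u) = S f 0 := sum_mul f 0 11 rfl
  have s12 : ∑ u : (R n)ˣ, f (((12 : ℕ) : R n) * u) = S f 2 := sum_mul f 2 3 rfl
  have s13 : ∑ u : (R n)ˣ, f (((13 : ℕ) : R n) * u) = S f 0 := sum_mul f 0 13 rfl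
  have s14 : ∑ u : (R n)ˣ, f (((14 : ℕ) : R n) * u) = S f 1 := sum_mul f 1 7 rfl
  have s15 : ∑ u : (R n)ˣ, f (((15 : ℕ) : R n) * u) = S f 0 := sum_mul f 0 15 rfl
  have s16 : ∑ u : (R n)ˣ, f (((16 : ℕ) : R n) * u) = S f 4 := sum_mul f 4 1 rfl
  have s17 : ∑ u : (R n)ˣ, f (((17 : ℕ) : R n) * u) = S f 0 := sum_mul f 0 17 rfl
  have s18 : ∑ u : (R n)ˣ, f (((18 : ℕ) : R n) * u) = S f 1 := sum_mul f 1 9 rfl
  have s19 : ∑ u : (R n)ˣ, f (((19 : ℕ) : R n) * u) = S f 0 := sum_mul f 0 19 rfl
  have s20 : ∑ u : (R n)ˣ, f (((20 : ℕ) : R n) * u) = S f 2 := sum_mul f 2 5 rfl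
  have s21 : ∑ u : (R n)ˣ, f (((21 : ℕ) : R n) * u) = S f 0 := sum_mul f 0 21 rfl
  have s22 : ∑ u : (R n)ˣ, f (((22 : ℕ) : R n) * u) = S f 1 := sum_mul f 1 11 rfl
  have s23 : ∑ u : (R n)ˣ, f (((23 : ℕ) : R n) * u) = S f 0 := sum_mul f 0 23 rfl
  have s24 : ∑ u : (R n)ˣ, f (((24 : ℕ) : R n) * u) = S f 3 := sum_mul f 3 3 rfl
  rw [sum_range_succ, sum_range_succ, sum_range_succ, sum_range_succ, sum_range_succ,
    sum_range_succ, sum_range_succ, sum_range_succ, sum_range_succ, sum_range_succ,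
    sum_range_succ, sum_range_succ, sum_range_succ, sum_range_succ, sum_range_succ,
    sum_range_succ, sum_range_succ, sum_range_succ, sum_range_succ, sum_range_succ,
    sum_range_succ, sum_range_succ, sum_range_succ, sum_range_succ, sum_range_succ,
    sum_range_zero, s1, s2, s3, s4, s5, s6, s7, s8, s9, s10, s11, s12, s13, s14, s15, s16, s17,
    s18, s19, s20, s21, s22, s23, s24] at h1
  simp only [wt, wtL, List.getD_cons_zero, List.getD_cons_succ] at h1
  omega

/-! ### The main induction -/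

lemma T_recursion (f : R n → ℕ) : 32 * T f 0 =
    32 * S f 0 + 16 * S f 1 + 8 * S f 2 + 4 * S f 3 + 2 * S f 4 + T f 5 := by
  have h0 := T_split f 0
  have h1 := T_split f 1
  have h2 := T_split f 2
  have h3 := T_split f 3
  have h4 := T_split f 4
  simp only [zero_add, Nat.reduceAdd] at h0 h1 h2 h3 h4
  omega

/-- The upper bound for periodic cube-free functions, by strong induction on the period. -/
theorem bound : ∀ (k : ℕ) (f : R n → ℕ), CF f → (∀ z, f (z + ((2 ^ k : ℕ) : R n)) = f z) →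
    4 * T f 0 ≤ 5 * 2 ^ n := by
  intro k
  induction k using Nat.strong_induction_on with
  | _ k ih =>
    intro f hf hper
    rcases Nat.eq_zero_or_pos k with rfl | hk
    · -- `f` is constant, hence zero
      have hz : ∀ m : ℕ, f ((m : ℕ) : R n) = 0 := by
        intro m
        induction m with
        | zero => simpa using hf.zero
        | succ m ihm =>
          have := hper ((m : ℕ) : R n)
          rw [pow_zero, Nat.cast_one] at this
          rw [Nat.cast_succ, this, ihm]
      have hT : T f 0 = 0 := by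
        unfold T
        refine sum_eq_zero fun z _ => ?_
        rw [pow_zero, one_mul, ← ZMod.natCast_zmod_val z]
        exact hz _
      rw [hT]
      positivity
    · by_cases hS : 3 * 2 ^ n < 4 * S f 0
      · have h1 := T_two_le hf hS
        have h2 := ineq_123 hf
        have h3 := T_split f 0
        have h4 := T_split f 1
        simp only [zero_add, Nat.reduceAdd] at h3 h4
        omega
      · -- the tail
        have hg : 4 * T f 5 ≤ 5 * 2 ^ n := by
          have hcf : CF (fun z : R n => f (2 ^ 5 * z)) := by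
            refine ⟨fun x => hf.le_one _, fun a b c => ?_⟩
            have h1 := hf.free (2 ^ 5 * a) (2 ^ 5 * b) (2 ^ 5 * c)
            rw [← mul_add, ← mul_add, ← mul_add, ← mul_add] at h1
            exact h1
          have hper' : ∀ z : R n, f (2 ^ 5 * (z + ((2 ^ (k - 5) : ℕ) : R n))) = f (2 ^ 5 * z) := by
            intro z
            rcases le_or_gt 5 k with h5 | h5
            · have e : (2 : R n) ^ 5 * (z + ((2 ^ (k - 5) : ℕ) : R n)) =
                  2 ^ 5 * z + ((2 ^ k : ℕ) : R n) := by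
                obtain ⟨j, rfl⟩ := Nat.exists_eq_add_of_le h5
                rw [Nat.add_sub_cancel_left]
                push_cast
                ring
              rw [e, hper]
            · -- iterate the period
              have hit : ∀ (m : ℕ) (z : R n), f (z + ((m * 2 ^ k : ℕ) : R n)) = f z := by
                intro m
                induction m with
                | zero => intro z; simp
                | succ m ihm =>
                  intro z
                  have e : z + (((m + 1) * 2 ^ k : ℕ) : R n) =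
                      (z + ((m * 2 ^ k : ℕ) : R n)) + ((2 ^ k : ℕ) : R n) := by
                    push_cast
                    ring
                  rw [e, hper, ihm]
              have e : (2 : R n) ^ 5 * (z + ((2 ^ (k - 5) : ℕ) : R n)) =
                  2 ^ 5 * z + ((2 ^ (5 - k) * 2 ^ k : ℕ) : R n) := by
                have e1 : 2 ^ (5 - k) * 2 ^ k = 2 ^ 5 := by
                  rw [← pow_add]
                  congr 1
                  omega
                have e2 : k - 5 = 0 := by omega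
                rw [e1, e2]
                push_cast
                ring
              rw [e, hit]
          have h1 := ih (k - 5) (by omega) _ hcf hper'
          have h2 : T (fun z : R n => f (2 ^ 5 * z)) 0 = T f 5 := by
            unfold T
            simp
          rwa [h2] at h1
        have h1 := cert hf
        have h2 := T_recursion f
        omega

/-- **Upper bound.** -/
theorem card_le (A : Finset (R n))
    (hA : ∀ a b c : R n, ¬ (a ∈ A ∧ b ∈ A ∧ c ∈ A ∧ a + b ∈ A ∧ a + c ∈ A ∧ b + c ∈ A ∧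
      a + b + c ∈ A)) : 4 * A.card ≤ 5 * 2 ^ n := by
  classical
  have hcf : CF (fun z : R n => if z ∈ A then 1 else 0) := by
    refine ⟨fun x => by split_ifs <;> omega, fun a b c => ?_⟩
    have h := hA a b c
    by_contra hcon
    push Not at hcon
    obtain ⟨h1, h2, h3, h4, h5, h6, h7⟩ := hcon
    simp only [ne_eq, ite_eq_right_iff, one_ne_zero, imp_false, not_not] at h1 h2 h3 h4 h5 h6 h7
    exact h ⟨h1, h2, h3, h4, h5, h6, h7⟩
  have h1 := bound (n + 1) _ hcf (fun z => by
    rw [ZMod.natCast_self, add_zero])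
  have h2 : T (fun z : R n => if z ∈ A then 1 else 0) 0 = A.card := by
    unfold T
    simp
  rwa [h2] at h1

end Pool.Agent.H45.CubeMain
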