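import Mathlib

/-!
# A weakly continuous metric projection that is not norm continuous: the construction

`V = 𝕜²` Euclidean, `F = ℓ²(ℕ, 𝕜)`, `w : V → F` is homogeneous, weakly continuous, bounded by the
norm, and not norm continuous.  The space `EE` is `V × F` with the norm
`‖(y, v)‖ = sup |p y + φ v|`, the supremum over all pairs of functionals `(p, φ)` with `‖φ‖ ≤ 1`
and `|p y + φ (w y)| ≤ ‖y‖` for all `y`.  The subspace is `G = 0 × F` and the metric projection is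
`(y, v) ↦ (0, v - w y)`.
-/

set_option autoImplicit false

open Filter Topology

namespace Pool.Agent.H45.MetricProj

variable (𝕜 : Type) [RCLike 𝕜]

/-- The two-dimensional Euclidean space. -/
abbrev V := EuclideanSpace 𝕜 (Fin 2)

/-- The Hilbert space of square summable sequences. -/
abbrev F := lp (fun _ : ℕ => 𝕜) 2

variable {𝕜}

/-- tent functions -/
noncomputable def tent (n : ℕ) (y : V 𝕜) : ℝ :=
  max 0 (min (‖y 0‖ - 2 ^ n * ‖y 1‖) (2 ^ (n + 1) * ‖y 1‖ - ‖y 0‖))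

lemma tent_nonneg (n : ℕ) (y : V 𝕜) : 0 ≤ tent n y := le_max_left _ _

lemma tent_le (n : ℕ) (y : V 𝕜) : tent n y ≤ ‖y 0‖ := by
  unfold tent
  refine max_le (norm_nonneg _) ((min_le_left _ _).trans ?_)
  have : 0 ≤ (2:ℝ) ^ n * ‖y 1‖ := by positivity
  linarith

lemma tent_pos {n : ℕ} {y : V 𝕜} (h : 0 < tent n y) :
    2 ^ n * ‖y 1‖ < ‖y 0‖ ∧ ‖y 0‖ < 2 ^ (n + 1) * ‖y 1‖ := by
  unfold tent at h
  rw [lt_max_iff] at h
  rcases h with h | h
  · exact absurd h (lt_irrefl _)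
  · rw [lt_min_iff] at h
    constructor <;> linarith [h.1, h.2]

lemma tent_unique_aux {m n : ℕ} {y : V 𝕜} (hm : 0 < tent m y) (hn : 0 < tent n y) (hmn : m < n) :
    False := by
  have h1 := tent_pos hm
  have h2 := tent_pos hn
  have h3 : (2:ℝ) ^ (m + 1) ≤ 2 ^ n := pow_le_pow_right₀ (by norm_num) hmn
  have h4 : (2:ℝ) ^ (m + 1) * ‖y 1‖ ≤ 2 ^ n * ‖y 1‖ :=
    mul_le_mul_of_nonneg_right h3 (norm_nonneg _)
  linarith [h1.2, h2.1]

lemma tent_unique {m n : ℕ} {y : V 𝕜} (hm : 0 < tent m y) (hn : 0 < tent n y) : m = n := by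
  rcases lt_trichotomy m n with h | h | h
  · exact (tent_unique_aux hm hn h).elim
  · exact h
  · exact (tent_unique_aux hn hm h).elim

/-- The coordinates of `w`. -/
noncomputable def wc (n : ℕ) (y : V 𝕜) : 𝕜 := y 0 * ((tent n y / ‖y‖ : ℝ) : 𝕜)

lemma norm_coord_le (y : V 𝕜) (i : Fin 2) : ‖y i‖ ≤ ‖y‖ := PiLp.norm_apply_le y i

lemma norm_wc_le (n : ℕ) (y : V 𝕜) : ‖wc n y‖ ≤ ‖y‖ := by
  unfold wc
  rw [norm_mul, RCLike.norm_ofReal, abs_of_nonneg (by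
    exact div_nonneg (tent_nonneg n y) (norm_nonneg _))]
  have h0 := norm_coord_le y 0
  have h1 : tent n y / ‖y‖ ≤ 1 :=
    div_le_one_of_le₀ ((tent_le n y).trans h0) (norm_nonneg _)
  calc ‖y 0‖ * (tent n y / ‖y‖) ≤ ‖y 0‖ * 1 :=
        mul_le_mul_of_nonneg_left h1 (norm_nonneg _)
    _ ≤ ‖y‖ := by simpa using h0

open Classical in
/-- The map `w`. -/
noncomputable def w (y : V 𝕜) : F 𝕜 :=
  if h : ∃ n, 0 < tent n y then lp.single 2 h.choose (wc h.choose y) else 0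

lemma wc_eq_zero {n : ℕ} {y : V 𝕜} (h : ¬ 0 < tent n y) : wc n y = 0 := by
  have : tent n y = 0 := le_antisymm (not_lt.mp h) (tent_nonneg n y)
  simp [wc, this]

lemma w_eq_single {n : ℕ} {y : V 𝕜} (h : 0 < tent n y) : w y = lp.single 2 n (wc n y) := by
  have hex : ∃ n, 0 < tent n y := ⟨n, h⟩
  unfold w
  rw [dif_pos hex, tent_unique hex.choose_spec h]

lemma w_eq_zero {y : V 𝕜} (h : ¬ ∃ n, 0 < tent n y) : w y = 0 := by
  unfold w
  rw [dif_neg h]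

lemma w_apply (y : V 𝕜) (n : ℕ) : (w y : ℕ → 𝕜) n = wc n y := by
  by_cases hn : 0 < tent n y
  · rw [w_eq_single hn]
    simp
  · rw [wc_eq_zero hn]
    by_cases h : ∃ m, 0 < tent m y
    · obtain ⟨m, hm⟩ := h
      have hne : n ≠ m := by
        rintro rfl
        exact hn hm
      rw [w_eq_single hm, lp.single_apply_ne]
      exact hne
    · rw [w_eq_zero h]
      rfl

lemma norm_w_le (y : V 𝕜) : ‖w y‖ ≤ ‖y‖ := by
  by_cases h : ∃ m, 0 < tent m y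
  · obtain ⟨m, hm⟩ := h
    rw [w_eq_single hm, lp.norm_single (by norm_num)]
    exact norm_wc_le m y
  · rw [w_eq_zero h, norm_zero]
    exact norm_nonneg _

lemma tent_smul (c : 𝕜) (n : ℕ) (y : V 𝕜) : tent n (c • y) = ‖c‖ * tent n y := by
  unfold tent
  simp only [PiLp.smul_apply, smul_eq_mul, norm_mul]
  rw [mul_max_of_nonneg _ _ (norm_nonneg c), mul_min_of_nonneg _ _ (norm_nonneg c)]
  ring_nf

lemma wc_smul (c : 𝕜) (n : ℕ) (y : V 𝕜) : wc n (c • y) = c * wc n y := by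
  by_cases hc : c = 0
  · subst hc
    simp [wc]
  · have hc' : ‖c‖ ≠ 0 := norm_ne_zero_iff.mpr hc
    unfold wc
    rw [tent_smul, norm_smul, mul_div_mul_left _ _ hc']
    simp only [PiLp.smul_apply, smul_eq_mul]
    ring

lemma w_smul (c : 𝕜) (y : V 𝕜) : w (c • y) = c • w y := by
  apply lp.ext
  funext n
  rw [lp.coeFn_smul, Pi.smul_apply, w_apply, w_apply, wc_smul, smul_eq_mul]


lemma continuous_tent (n : ℕ) : Continuous (tent n : V 𝕜 → ℝ) := by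
  unfold tent
  fun_prop

lemma w_zero : w (0 : V 𝕜) = 0 := by
  have h := norm_w_le (0 : V 𝕜)
  rw [norm_zero] at h
  exact norm_le_zero_iff.mp h

lemma wc_zero (n : ℕ) : wc n (0 : V 𝕜) = 0 := by simp [wc]

lemma continuous_wc (n : ℕ) : Continuous (wc n : V 𝕜 → 𝕜) := by
  rw [continuous_iff_continuousAt]
  intro y
  by_cases hy : y = 0
  · subst hy
    rw [ContinuousAt, wc_zero]
    apply squeeze_zero_norm (a := fun y : V 𝕜 => ‖y‖) (fun t => norm_wc_le n t)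
    have : Tendsto (fun y : V 𝕜 => ‖y‖) (𝓝 0) (𝓝 ‖(0 : V 𝕜)‖) := continuous_norm.continuousAt
    simpa using this
  · unfold wc
    have h1 : ContinuousAt (fun y : V 𝕜 => y 0) y := by fun_prop
    have h2 : ContinuousAt (fun y : V 𝕜 => tent n y / ‖y‖) y :=
      (continuous_tent n).continuousAt.div continuous_norm.continuousAt (norm_ne_zero_iff.mpr hy)
    exact h1.mul (RCLike.continuous_ofReal.continuousAt.comp h2)

/-- `w` is weakly continuous, inner product version. -/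
lemma continuous_inner_w (g : F 𝕜) : Continuous fun y : V 𝕜 => inner 𝕜 g (w y) := by
  rw [continuous_iff_continuousAt]
  intro y0
  apply continuousAt_of_locally_uniform_approx_of_continuousAt
  intro u hu
  obtain ⟨ε, hε, hεu⟩ := Metric.mem_uniformity_dist.mp hu
  have hsum : HasSum (fun n : ℕ => lp.single 2 n (g n)) g := lp.hasSum_single ENNReal.ofNat_ne_top g
  have hM : 0 < ‖y0‖ + 1 := by positivity
  have hδ : 0 < ε / (‖y0‖ + 1) := by positivity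
  obtain ⟨s, hs⟩ := (Metric.tendsto_nhds.mp hsum _ hδ).exists
  refine ⟨Metric.ball y0 1, Metric.ball_mem_nhds _ one_pos,
    fun y => inner 𝕜 (∑ n ∈ s, lp.single 2 n (g n)) (w y), ?_, ?_⟩
  · have heq : (fun y : V 𝕜 => inner 𝕜 (∑ n ∈ s, lp.single 2 n (g n)) (w y)) =
        fun y => ∑ n ∈ s, inner 𝕜 (g n) (wc n y) := by
      funext y
      rw [sum_inner]
      refine Finset.sum_congr rfl fun n _ => ?_
      rw [lp.inner_single_left, w_apply]
    rw [heq]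
    apply Continuous.continuousAt
    refine continuous_finsetSum _ fun n _ => ?_
    exact continuous_const.inner (continuous_wc n)
  · intro y hy
    apply hεu
    rw [dist_eq_norm, ← inner_sub_left]
    have h1 : ‖y‖ < ‖y0‖ + 1 := by
      have h2 : ‖y - y0‖ < 1 := by simpa [dist_eq_norm] using hy
      have h3 : ‖y‖ ≤ ‖y - y0‖ + ‖y0‖ := by
        simpa using norm_add_le (y - y0) y0
      linarith
    have h4 : ‖g - ∑ n ∈ s, lp.single 2 n (g n)‖ < ε / (‖y0‖ + 1) := by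
      rw [norm_sub_rev, ← dist_eq_norm]
      exact hs
    calc ‖inner 𝕜 (g - ∑ n ∈ s, lp.single 2 n (g n)) (w y)‖
        ≤ ‖g - ∑ n ∈ s, lp.single 2 n (g n)‖ * ‖w y‖ := norm_inner_le_norm _ _
      _ ≤ ‖g - ∑ n ∈ s, lp.single 2 n (g n)‖ * (‖y0‖ + 1) := by
          apply mul_le_mul_of_nonneg_left _ (norm_nonneg _)
          exact (norm_w_le y).trans h1.le
      _ < ε / (‖y0‖ + 1) * (‖y0‖ + 1) := mul_lt_mul_of_pos_right h4 hM
      _ = ε := by field_simp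

lemma continuous_clm_w (φ : F 𝕜 →L[𝕜] 𝕜) : Continuous fun y : V 𝕜 => φ (w y) := by
  have h := continuous_inner_w ((InnerProductSpace.toDual 𝕜 (F 𝕜)).symm φ)
  simpa only [InnerProductSpace.toDual_symm_apply] using h


variable (𝕜) in
/-- The pairs of functionals defining the norm: `‖φ‖ ≤ 1` and `|p y + φ (w y)| ≤ ‖y‖` for all
`y`. -/
def K : Set ((V 𝕜 →L[𝕜] 𝕜) × (F 𝕜 →L[𝕜] 𝕜)) :=
  {k | ‖k.2‖ ≤ 1 ∧ ∀ y, ‖k.1 y + k.2 (w y)‖ ≤ ‖y‖}

lemma zero_mem_K : (0 : (V 𝕜 →L[𝕜] 𝕜) × (F 𝕜 →L[𝕜] 𝕜)) ∈ K 𝕜 := by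
  constructor
  · simp
  · intro y
    simp

lemma K_bound {k : (V 𝕜 →L[𝕜] 𝕜) × (F 𝕜 →L[𝕜] 𝕜)} (hk : k ∈ K 𝕜) (y : V 𝕜) (v : F 𝕜) :
    ‖k.1 y + k.2 v‖ ≤ ‖y‖ + ‖v - w y‖ := by
  have h1 : k.1 y + k.2 v = (k.1 y + k.2 (w y)) + k.2 (v - w y) := by
    rw [map_sub]
    ring
  rw [h1]
  refine (norm_add_le _ _).trans (add_le_add (hk.2 y) ?_)
  calc ‖k.2 (v - w y)‖ ≤ ‖k.2‖ * ‖v - w y‖ := k.2.le_opNorm _
    _ ≤ 1 * ‖v - w y‖ := mul_le_mul_of_nonneg_right hk.1 (norm_nonneg _)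
    _ = ‖v - w y‖ := one_mul _

/-- The key separation lemma, on the unit sphere. -/
lemma key_unit (u : V 𝕜) (hu : ‖u‖ = 1) (v : F 𝕜) (h : ∀ k ∈ K 𝕜, ‖k.1 u + k.2 v‖ ≤ 1) :
    v = w u := by
  by_contra hne
  have hd : 0 < ‖v - w u‖ := norm_pos_iff.mpr (sub_ne_zero.mpr hne)
  obtain ⟨φ, hφ1, hφ2⟩ := exists_dual_vector'' 𝕜 (v - w u)
  obtain ⟨δ, hδdef⟩ : ∃ δ : ℝ, δ = ‖v - w u‖ / 2 := ⟨_, rfl⟩
  have hδ : 0 < δ := by rw [hδdef]; positivity
  have hφw : ∀ y : V 𝕜, ‖φ (w y)‖ ≤ ‖y‖ := fun y =>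
    calc ‖φ (w y)‖ ≤ ‖φ‖ * ‖w y‖ := φ.le_opNorm _
      _ ≤ 1 * ‖y‖ := mul_le_mul hφ1 (norm_w_le y) (norm_nonneg _) zero_le_one
      _ = ‖y‖ := one_mul _
  -- continuity of `φ ∘ w` at `u`
  obtain ⟨η₀, hη₀, hcont⟩ : ∃ η₀ > 0, ∀ y : V 𝕜, ‖y - u‖ < η₀ →
      ‖φ (w y) - φ (w u)‖ < δ / 4 := by
    have hc := (continuous_clm_w φ).continuousAt (x := u)
    rw [Metric.continuousAt_iff] at hc
    obtain ⟨η, hη, hc⟩ := hc (δ / 4) (by positivity)
    refine ⟨η, hη, fun y hy => ?_⟩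
    have := hc (x := y) (by rwa [dist_eq_norm])
    rwa [dist_eq_norm] at this
  -- choice of `η`
  obtain ⟨η, hη, hη1, hη2, hη3⟩ : ∃ η > 0, η ≤ 1 / 2 ∧ 2 * η < η₀ ^ 2 ∧ η ≤ δ / 4 := by
    refine ⟨min (1 / 2) (min (η₀ ^ 2 / 4) (δ / 4)), by positivity, min_le_left _ _, ?_, ?_⟩
    · have : min (1 / 2) (min (η₀ ^ 2 / 4) (δ / 4)) ≤ η₀ ^ 2 / 4 :=
        (min_le_right _ _).trans (min_le_left _ _)
      have h2 : 0 < η₀ ^ 2 := by positivity
      linarith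
    · exact (min_le_right _ _).trans (min_le_right _ _)
  -- choice of `t`
  obtain ⟨t, ht, ht1, ht2, ht3⟩ : ∃ t > 0, t ≤ 1 ∧ t * (2 + δ) ≤ η ∧ t * δ ≤ 1 := by
    refine ⟨η / (2 + δ), by positivity, ?_, ?_, ?_⟩
    · rw [div_le_one (by positivity)]
      linarith
    · rw [div_mul_cancel₀ _ (by positivity)]
    · rw [div_mul_eq_mul_div, div_le_one (by positivity)]
      nlinarith
  set c : 𝕜 := φ (w u) + (δ : 𝕜) with hc
  have hcn : ‖c‖ ≤ 1 + δ := by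
    refine (norm_add_le _ _).trans (add_le_add ((hφw u).trans hu.le) ?_)
    rw [RCLike.norm_ofReal, abs_of_pos hδ]
  set p : V 𝕜 →L[𝕜] 𝕜 := (1 - (t : 𝕜) * c) • innerSL 𝕜 u with hp
  have hpy : ∀ y, p y = (1 - (t : 𝕜) * c) * inner 𝕜 u y := fun y => by
    simp [hp]
  have hmem : ((p, (t : 𝕜) • φ) : (V 𝕜 →L[𝕜] 𝕜) × (F 𝕜 →L[𝕜] 𝕜)) ∈ K 𝕜 := by
    constructor
    · show ‖(t : 𝕜) • φ‖ ≤ 1
      rw [norm_smul, RCLike.norm_ofReal, abs_of_pos ht]
      calc t * ‖φ‖ ≤ 1 * 1 := mul_le_mul ht1 hφ1 (norm_nonneg _) zero_le_one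
        _ = 1 := one_mul _
    · -- first the case of unit vectors with nonnegative inner product with `u`
      have hunit : ∀ y : V 𝕜, ‖y‖ = 1 → ∀ ρ : ℝ, 0 ≤ ρ → inner 𝕜 u y = (ρ : 𝕜) →
          ‖p y + (t : 𝕜) * φ (w y)‖ ≤ 1 := by
        intro y hy ρ hρ0 hρ
        have hρ1 : ρ ≤ 1 := by
          have := norm_inner_le_norm (𝕜 := 𝕜) u y
          rw [hρ, RCLike.norm_ofReal, abs_of_nonneg hρ0, hu, hy, one_mul] at this
          exact this
        rw [hpy, hρ]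
        by_cases hcase : ρ ≤ 1 - η
        · calc ‖(1 - (t : 𝕜) * c) * (ρ : 𝕜) + (t : 𝕜) * φ (w y)‖
              ≤ ‖(1 - (t : 𝕜) * c) * (ρ : 𝕜)‖ + ‖(t : 𝕜) * φ (w y)‖ := norm_add_le _ _
            _ = ‖1 - (t : 𝕜) * c‖ * ρ + t * ‖φ (w y)‖ := by
                rw [norm_mul, norm_mul, RCLike.norm_ofReal, RCLike.norm_ofReal, abs_of_pos ht,
                  abs_of_nonneg hρ0]
            _ ≤ (1 + t * (1 + δ)) * (1 - η) + t * 1 := by
                apply add_le_add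
                · apply mul_le_mul _ hcase hρ0 (by positivity)
                  calc ‖1 - (t : 𝕜) * c‖ ≤ ‖(1 : 𝕜)‖ + ‖(t : 𝕜) * c‖ := norm_sub_le _ _
                    _ = 1 + t * ‖c‖ := by
                        rw [norm_one, norm_mul, RCLike.norm_ofReal, abs_of_pos ht]
                    _ ≤ 1 + t * (1 + δ) := by
                        have := mul_le_mul_of_nonneg_left hcn ht.le
                        linarith
                · exact mul_le_mul_of_nonneg_left ((hφw y).trans hy.le) ht.le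
            _ ≤ 1 := by
                have h1 : 0 ≤ t * (1 + δ) * η := by positivity
                nlinarith
        · have hρ2 : 1 - η < ρ := not_le.mp hcase
          have hyu : ‖y - u‖ < η₀ := by
            have h1 : ‖y - u‖ ^ 2 = 2 - 2 * ρ := by
              rw [@norm_sub_sq 𝕜, hy, hu]
              have : RCLike.re (inner 𝕜 y u) = ρ := by
                rw [← inner_conj_symm, hρ, RCLike.conj_ofReal, RCLike.ofReal_re]
              rw [this]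
              ring
            have h2 : ‖y - u‖ ^ 2 < η₀ ^ 2 := by
              rw [h1]
              linarith
            exact lt_of_pow_lt_pow_left₀ 2 hη₀.le h2
          have h3 := hcont y hyu
          have hid : (1 - (t : 𝕜) * c) * (ρ : 𝕜) + (t : 𝕜) * φ (w y) =
              ((ρ * (1 - t * δ) : ℝ) : 𝕜) + (t : 𝕜) * (φ (w y) - φ (w u)) +
                ((t * (1 - ρ) : ℝ) : 𝕜) * φ (w u) := by
            rw [hc]
            push_cast
            ring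
          rw [hid]
          calc ‖((ρ * (1 - t * δ) : ℝ) : 𝕜) + (t : 𝕜) * (φ (w y) - φ (w u)) +
                ((t * (1 - ρ) : ℝ) : 𝕜) * φ (w u)‖
              ≤ ‖((ρ * (1 - t * δ) : ℝ) : 𝕜)‖ + ‖(t : 𝕜) * (φ (w y) - φ (w u))‖ +
                ‖((t * (1 - ρ) : ℝ) : 𝕜) * φ (w u)‖ := norm_add₃_le
            _ = ρ * (1 - t * δ) + t * ‖φ (w y) - φ (w u)‖ + t * (1 - ρ) * ‖φ (w u)‖ := by
                have h4 : 0 ≤ ρ * (1 - t * δ) := mul_nonneg hρ0 (by linarith)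
                have h5 : 0 ≤ t * (1 - ρ) := mul_nonneg ht.le (by linarith)
                rw [norm_mul, norm_mul, RCLike.norm_ofReal, RCLike.norm_ofReal,
                  RCLike.norm_ofReal, abs_of_pos ht, abs_of_nonneg h4, abs_of_nonneg h5]
            _ ≤ ρ * (1 - t * δ) + t * (δ / 4) + t * η * 1 := by
                have h5 : t * ‖φ (w y) - φ (w u)‖ ≤ t * (δ / 4) :=
                  mul_le_mul_of_nonneg_left h3.le ht.le
                have h6 : t * (1 - ρ) * ‖φ (w u)‖ ≤ t * η * 1 := by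
                  apply mul_le_mul _ ((hφw u).trans hu.le) (norm_nonneg _) (by positivity)
                  exact mul_le_mul_of_nonneg_left (by linarith) ht.le
                linarith
            _ ≤ 1 := by
                have h7 : 1 / 2 * (t * δ) ≤ ρ * (t * δ) := by
                  apply mul_le_mul_of_nonneg_right _ (by positivity)
                  linarith
                have h8 : t * η ≤ t * (δ / 4) := mul_le_mul_of_nonneg_left hη3 ht.le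
                nlinarith
      -- the general case by homogeneity
      intro y
      show ‖p y + ((t : 𝕜) • φ) (w y)‖ ≤ ‖y‖
      have hsm : ((t : 𝕜) • φ) (w y) = (t : 𝕜) * φ (w y) := by simp
      rw [hsm]
      by_cases hy : y = 0
      · subst hy
        simp [w_zero]
      · have hy0 : ‖y‖ ≠ 0 := norm_ne_zero_iff.mpr hy
        have hypos : 0 < ‖y‖ := norm_pos_iff.mpr hy
        obtain ⟨s, hs1, hs2⟩ := RCLike.exists_norm_mul_eq_self (inner 𝕜 u y)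
        have hs0 : s ≠ 0 := by
          rintro rfl
          simp at hs1
        set μ : 𝕜 := s * (‖y‖ : 𝕜) with hμ
        have hμn : ‖μ‖ = ‖y‖ := by
          rw [hμ, norm_mul, hs1, one_mul, RCLike.norm_ofReal, abs_of_nonneg (norm_nonneg _)]
        have hμ0 : μ ≠ 0 := by
          rw [← norm_ne_zero_iff, hμn]
          exact hy0
        have hy' : y = μ • (μ⁻¹ • y) := by
          rw [smul_smul, mul_inv_cancel₀ hμ0, one_smul]
        have hn' : ‖μ⁻¹ • y‖ = 1 := by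
          rw [norm_smul, norm_inv, hμn, inv_mul_cancel₀ hy0]
        have hin : inner 𝕜 u (μ⁻¹ • y) = ((‖(inner 𝕜 u y : 𝕜)‖ / ‖y‖ : ℝ) : 𝕜) := by
          rw [inner_smul_right, ← hs2, norm_mul, hs1, one_mul, RCLike.norm_ofReal, abs_norm, hμ]
          have h9 : (‖y‖ : 𝕜) ≠ 0 := by exact_mod_cast hy0
          push_cast
          field_simp
        have hb := hunit (μ⁻¹ • y) hn' _ (by positivity) hin
        calc ‖p y + (t : 𝕜) * φ (w y)‖
            = ‖μ * (p (μ⁻¹ • y) + (t : 𝕜) * φ (w (μ⁻¹ • y)))‖ := by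
              have e1 : p y = μ * p (μ⁻¹ • y) := by
                conv_lhs => rw [hy']
                rw [map_smul p μ, smul_eq_mul]
              have e2 : φ (w y) = μ * φ (w (μ⁻¹ • y)) := by
                conv_lhs => rw [hy']
                rw [w_smul, map_smul φ μ, smul_eq_mul]
              rw [e1, e2]
              congr 1
              ring
          _ = ‖y‖ * ‖p (μ⁻¹ • y) + (t : 𝕜) * φ (w (μ⁻¹ • y))‖ := by rw [norm_mul, hμn]
          _ ≤ ‖y‖ * 1 := mul_le_mul_of_nonneg_left hb (norm_nonneg _)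
          _ = ‖y‖ := mul_one _
  have hfin := h _ hmem
  have hval : p u + ((t : 𝕜) • φ) v = ((1 + t * δ : ℝ) : 𝕜) := by
    have h1 : (inner 𝕜 u u : 𝕜) = 1 := by
      rw [inner_self_eq_norm_sq_to_K, hu]
      simp
    have h2 : φ v = φ (w u) + ((2 * δ : ℝ) : 𝕜) := by
      have h3 : φ v = φ (w u) + φ (v - w u) := by
        rw [map_sub]
        ring
      rw [h3, hφ2, hδdef]
      congr 2
      ring
    have h4 : ((t : 𝕜) • φ) v = (t : 𝕜) * φ v := by simp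
    rw [hpy, h1, h4, h2, hc]
    push_cast
    ring
  simp only at hfin
  rw [hval, RCLike.norm_ofReal, abs_of_nonneg (by positivity)] at hfin
  have : 0 < t * δ := by positivity
  linarith


variable (𝕜) in
/-- The underlying vector space `𝕜² × ℓ²(ℕ, 𝕜)` of the counterexample, to be given its own norm. -/
def EE : Type := V 𝕜 × F 𝕜

noncomputable instance instAddCommGroupEE : AddCommGroup (EE 𝕜) := inferInstanceAs (AddCommGroup (V 𝕜 × F 𝕜))
noncomputable instance instModuleEE : Module 𝕜 (EE 𝕜) := inferInstanceAs (Module 𝕜 (V 𝕜 × F 𝕜))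

noncomputable instance instNormEE : Norm (EE 𝕜) :=
  ⟨fun x => ⨆ k : K 𝕜, ‖(k : (V 𝕜 →L[𝕜] 𝕜) × (F 𝕜 →L[𝕜] 𝕜)).1 x.1 +
    (k : (V 𝕜 →L[𝕜] 𝕜) × (F 𝕜 →L[𝕜] 𝕜)).2 x.2‖⟩

lemma norm_def (x : EE 𝕜) : ‖x‖ = ⨆ k : K 𝕜,
    ‖(k : (V 𝕜 →L[𝕜] 𝕜) × (F 𝕜 →L[𝕜] 𝕜)).1 x.1 +
      (k : (V 𝕜 →L[𝕜] 𝕜) × (F 𝕜 →L[𝕜] 𝕜)).2 x.2‖ := rfl

instance : Nonempty (K 𝕜) := ⟨⟨0, zero_mem_K⟩⟩

lemma bddAbove_K (x : EE 𝕜) : BddAbove (Set.range fun k : K 𝕜 =>
    ‖(k : (V 𝕜 →L[𝕜] 𝕜) × (F 𝕜 →L[𝕜] 𝕜)).1 x.1 +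
      (k : (V 𝕜 →L[𝕜] 𝕜) × (F 𝕜 →L[𝕜] 𝕜)).2 x.2‖) := by
  refine ⟨‖x.1‖ + ‖x.2 - w x.1‖, ?_⟩
  rintro _ ⟨k, rfl⟩
  exact K_bound k.2 _ _

lemma le_norm (x : EE 𝕜) {k : (V 𝕜 →L[𝕜] 𝕜) × (F 𝕜 →L[𝕜] 𝕜)} (hk : k ∈ K 𝕜) :
    ‖k.1 x.1 + k.2 x.2‖ ≤ ‖x‖ := by
  rw [norm_def]
  exact le_ciSup (bddAbove_K x) ⟨k, hk⟩

lemma norm_le_of {x : EE 𝕜} {C : ℝ}
    (h : ∀ k ∈ K 𝕜, ‖k.1 x.1 + k.2 x.2‖ ≤ C) : ‖x‖ ≤ C := by
  rw [norm_def]
  exact ciSup_le fun k => h k k.2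

lemma norm_le_sub (x : EE 𝕜) : ‖x‖ ≤ ‖x.1‖ + ‖x.2 - w x.1‖ :=
  norm_le_of fun _ hk => K_bound hk _ _

lemma norm_fst_le' (x : EE 𝕜) : ‖x.1‖ ≤ ‖x‖ := by
  obtain ⟨p, hp1, hp2⟩ := exists_dual_vector'' 𝕜 x.1
  have hk : ((p, 0) : (V 𝕜 →L[𝕜] 𝕜) × (F 𝕜 →L[𝕜] 𝕜)) ∈ K 𝕜 := by
    constructor
    · simp
    · intro y
      simp only [_root_.zero_apply, add_zero]
      calc ‖p y‖ ≤ ‖p‖ * ‖y‖ := p.le_opNorm _
        _ ≤ 1 * ‖y‖ := mul_le_mul_of_nonneg_right hp1 (norm_nonneg _)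
        _ = ‖y‖ := one_mul _
  have := le_norm x hk
  simp only [_root_.zero_apply, add_zero] at this
  rwa [hp2, RCLike.norm_ofReal, abs_norm] at this

lemma norm_snd_le' (x : EE 𝕜) : ‖x.2‖ ≤ ‖x‖ := by
  obtain ⟨p, hp1, hp2⟩ := exists_dual_vector'' 𝕜 x.2
  have hk : ((0, p) : (V 𝕜 →L[𝕜] 𝕜) × (F 𝕜 →L[𝕜] 𝕜)) ∈ K 𝕜 := by
    constructor
    · exact hp1
    · intro y
      simp only [_root_.zero_apply, zero_add]
      calc ‖p (w y)‖ ≤ ‖p‖ * ‖w y‖ := p.le_opNorm _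
        _ ≤ 1 * ‖y‖ := mul_le_mul hp1 (norm_w_le y) (norm_nonneg _) zero_le_one
        _ = ‖y‖ := one_mul _
  have := le_norm x hk
  simp only [_root_.zero_apply, zero_add] at this
  rwa [hp2, RCLike.norm_ofReal, abs_norm] at this

lemma fst_add (x y : EE 𝕜) : (x + y).1 = x.1 + y.1 := rfl
lemma snd_add (x y : EE 𝕜) : (x + y).2 = x.2 + y.2 := rfl
lemma fst_sub (x y : EE 𝕜) : (x - y).1 = x.1 - y.1 := rfl
lemma snd_sub (x y : EE 𝕜) : (x - y).2 = x.2 - y.2 := rfl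
lemma fst_smul (c : 𝕜) (x : EE 𝕜) : (c • x).1 = c • x.1 := rfl
lemma snd_smul (c : 𝕜) (x : EE 𝕜) : (c • x).2 = c • x.2 := rfl
lemma fst_zero : (0 : EE 𝕜).1 = 0 := rfl
lemma snd_zero : (0 : EE 𝕜).2 = 0 := rfl

lemma core : NormedSpace.Core 𝕜 (EE 𝕜) where
  norm_nonneg x := (norm_nonneg _).trans (norm_fst_le' x)
  norm_smul c x := by
    rw [norm_def, norm_def, Real.mul_iSup_of_nonneg (norm_nonneg c)]
    congr 1
    funext k
    rw [fst_smul, snd_smul, map_smul, map_smul, ← smul_add, norm_smul]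
  norm_triangle x y := by
    apply norm_le_of
    intro k hk
    rw [fst_add, snd_add, map_add, map_add, add_add_add_comm]
    exact (norm_add_le _ _).trans (add_le_add (le_norm x hk) (le_norm y hk))
  norm_eq_zero_iff x := by
    constructor
    · intro h
      have h1 : x.1 = 0 := norm_le_zero_iff.mp (h ▸ norm_fst_le' x)
      have h2 : x.2 = 0 := norm_le_zero_iff.mp (h ▸ norm_snd_le' x)
      exact Prod.ext h1 h2
    · rintro rfl
      apply le_antisymm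
      · apply norm_le_of
        intro k hk
        rw [fst_zero, snd_zero]
        simp
      · exact (norm_nonneg (0 : V 𝕜)).trans (norm_fst_le' (0 : EE 𝕜))

noncomputable instance instNormedAddCommGroupEE : NormedAddCommGroup (EE 𝕜) :=
  NormedAddCommGroup.ofCore (core (𝕜 := 𝕜))

noncomputable instance instNormedSpaceEE : NormedSpace 𝕜 (EE 𝕜) where
  norm_smul_le c x := (core.norm_smul c x).le


/-- The point `(y, v)` of `EE`. -/
def mk (y : V 𝕜) (v : F 𝕜) : EE 𝕜 := (y, v)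

lemma mk_fst (y : V 𝕜) (v : F 𝕜) : (mk y v).1 = y := rfl
lemma mk_snd (y : V 𝕜) (v : F 𝕜) : (mk y v).2 = v := rfl

/-- The norm of a lifted point `(y, w y)` is at most `‖y‖`. -/
lemma norm_lift_le (y : V 𝕜) : ‖mk y (w y)‖ ≤ ‖y‖ := by
  have h := norm_le_sub (mk y (w y))
  rwa [mk_fst, mk_snd, sub_self, norm_zero, add_zero] at h

/-- Uniqueness of the minimal lift. -/
lemma key (x : EE 𝕜) (h : ‖x‖ ≤ ‖x.1‖) : x.2 = w x.1 := by
  by_cases hy : x.1 = 0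
  · rw [hy, norm_zero] at h
    rw [hy, w_zero]
    exact norm_le_zero_iff.mp ((norm_snd_le' x).trans h)
  · have hy0 : ‖x.1‖ ≠ 0 := norm_ne_zero_iff.mpr hy
    have hpos : 0 < ‖x.1‖ := norm_pos_iff.mpr hy
    set c : 𝕜 := ((‖x.1‖⁻¹ : ℝ) : 𝕜) with hc
    have hcn : ‖c‖ = ‖x.1‖⁻¹ := by
      rw [hc, RCLike.norm_ofReal, abs_of_nonneg (by positivity)]
    have hc0 : c ≠ 0 := by
      rw [← norm_ne_zero_iff, hcn]
      positivity
    have h1 : ‖c • x.1‖ = 1 := by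
      rw [norm_smul, hcn, inv_mul_cancel₀ hy0]
    have h2 : c • x.2 = w (c • x.1) := by
      apply key_unit (c • x.1) h1 (c • x.2)
      intro k hk
      calc ‖k.1 (c • x.1) + k.2 (c • x.2)‖ ≤ ‖c • x‖ := le_norm (c • x) hk
        _ = ‖x.1‖⁻¹ * ‖x‖ := by rw [norm_smul, hcn]
        _ ≤ ‖x.1‖⁻¹ * ‖x.1‖ := mul_le_mul_of_nonneg_left h (by positivity)
        _ = 1 := inv_mul_cancel₀ hy0
    rw [w_smul] at h2
    exact smul_right_injective _ hc0 h2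

variable (𝕜) in
/-- The projection `(y, v) ↦ y` as a linear map. -/
noncomputable def fstL : EE 𝕜 →ₗ[𝕜] V 𝕜 where
  toFun x := x.1
  map_add' _ _ := rfl
  map_smul' _ _ := rfl

variable (𝕜) in
/-- The projection `(y, v) ↦ v` as a linear map. -/
noncomputable def sndL : EE 𝕜 →ₗ[𝕜] F 𝕜 where
  toFun x := x.2
  map_add' _ _ := rfl
  map_smul' _ _ := rfl

variable (𝕜) in
/-- The projection `(y, v) ↦ y` as a continuous linear map. -/
noncomputable def fstC : EE 𝕜 →L[𝕜] V 𝕜 :=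
  (fstL 𝕜).mkContinuous 1 fun x => by
    rw [one_mul]
    exact norm_fst_le' x

lemma fstC_apply (x : EE 𝕜) : fstC 𝕜 x = x.1 := rfl

variable (𝕜) in
/-- The inclusion `v ↦ (0, v)` as a linear map. -/
noncomputable def inrL : F 𝕜 →ₗ[𝕜] EE 𝕜 where
  toFun v := ((0 : V 𝕜), v)
  map_add' v v' := by
    refine Prod.ext ?_ rfl
    show (0 : V 𝕜) = 0 + 0
    simp
  map_smul' c v := by
    refine Prod.ext ?_ rfl
    show (0 : V 𝕜) = c • 0
    simp

variable (𝕜) in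
/-- The inclusion `v ↦ (0, v)` as a continuous linear map. -/
noncomputable def inrC : F 𝕜 →L[𝕜] EE 𝕜 :=
  (inrL 𝕜).mkContinuous 1 fun v => by
    have h := norm_le_sub (inrL 𝕜 v)
    have h1 : (inrL 𝕜 v).1 = 0 := rfl
    have h2 : (inrL 𝕜 v).2 = v := rfl
    rw [h1, h2, w_zero, norm_zero, zero_add, sub_zero] at h
    rwa [one_mul]

/-- The metric projection of the counterexample. -/
noncomputable def proj (x : EE 𝕜) : EE 𝕜 := inrC 𝕜 (x.2 - w x.1)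

lemma proj_fst (x : EE 𝕜) : (proj x).1 = 0 := rfl
lemma proj_snd (x : EE 𝕜) : (proj x).2 = x.2 - w x.1 := rfl

variable (𝕜) in
/-- The subspace of the counterexample. -/
noncomputable def G : Submodule 𝕜 (EE 𝕜) := LinearMap.ker (fstL 𝕜)

lemma mem_G {x : EE 𝕜} : x ∈ G 𝕜 ↔ x.1 = 0 := Iff.rfl

lemma sub_proj (x : EE 𝕜) : x - proj x = mk x.1 (w x.1) := by
  refine Prod.ext ?_ ?_
  · show x.1 - 0 = x.1
    simp
  · show x.2 - (x.2 - w x.1) = w x.1
    simp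

lemma norm_sub_proj (x : EE 𝕜) : ‖x - proj x‖ ≤ ‖x.1‖ := by
  rw [sub_proj]
  exact norm_lift_le _

lemma infDist_eq (x : EE 𝕜) : Metric.infDist x (G 𝕜 : Set (EE 𝕜)) = ‖x.1‖ := by
  apply le_antisymm
  · calc Metric.infDist x (G 𝕜 : Set (EE 𝕜)) ≤ dist x (proj x) :=
        Metric.infDist_le_dist_of_mem (mem_G.mpr (proj_fst x))
      _ = ‖x - proj x‖ := dist_eq_norm _ _
      _ ≤ ‖x.1‖ := norm_sub_proj x
  · rw [Metric.le_infDist ⟨0, (G 𝕜).zero_mem⟩]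
    intro g hg
    rw [dist_eq_norm]
    have h := norm_fst_le' (x - g)
    have hg' : g.1 = 0 := mem_G.mp hg
    rwa [fst_sub, hg', sub_zero] at h

lemma isMetricProjection_proj (x : EE 𝕜) :
    proj x ∈ (G 𝕜 : Set (EE 𝕜)) ∧ ‖x - proj x‖ = Metric.infDist x (G 𝕜 : Set (EE 𝕜)) := by
  refine ⟨mem_G.mpr (proj_fst x), ?_⟩
  rw [infDist_eq]
  apply le_antisymm (norm_sub_proj x)
  have h := norm_fst_le' (x - proj x)
  rwa [fst_sub, proj_fst, sub_zero] at h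

lemma existsUnique_nearest (x : EE 𝕜) : ∃! g : EE 𝕜, g ∈ (G 𝕜 : Set (EE 𝕜)) ∧
    ‖x - g‖ = Metric.infDist x (G 𝕜 : Set (EE 𝕜)) := by
  refine ⟨proj x, isMetricProjection_proj x, ?_⟩
  rintro g ⟨hg, hg2⟩
  have hg' : g.1 = 0 := mem_G.mp hg
  have h1 : (x - g).1 = x.1 := by rw [fst_sub, hg', sub_zero]
  have h2 : ‖x - g‖ ≤ ‖(x - g).1‖ := by rw [h1, hg2, infDist_eq]
  have h3 := key _ h2
  rw [h1, snd_sub] at h3
  refine Prod.ext hg' ?_
  show g.2 = x.2 - w x.1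
  rw [← h3]
  abel


/-- `E` is linearly homeomorphic to the Hilbert space `𝕜² ⊕ ℓ²`. -/
noncomputable def equivProd : EE 𝕜 ≃L[𝕜] V 𝕜 × F 𝕜 :=
  LinearEquiv.toContinuousLinearEquivOfBounds
    { toFun := fun x => ((x.1, x.2) : V 𝕜 × F 𝕜)
      invFun := fun x => mk x.1 x.2
      map_add' := fun _ _ => rfl
      map_smul' := fun _ _ => rfl
      left_inv := fun _ => rfl
      right_inv := fun _ => rfl }
    1 3
    (fun x => by
      rw [one_mul]
      exact max_le (norm_fst_le' x) (norm_snd_le' x))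
    (fun x => by
      have h := norm_le_sub (mk x.1 x.2)
      rw [mk_fst, mk_snd] at h
      have h1 : ‖x.2 - w x.1‖ ≤ ‖x.2‖ + ‖x.1‖ :=
        (norm_sub_le _ _).trans (add_le_add le_rfl (norm_w_le _))
      have h2 : ‖x.1‖ ≤ ‖x‖ := norm_fst_le x
      have h3 : ‖x.2‖ ≤ ‖x‖ := norm_snd_le x
      show ‖mk x.1 x.2‖ ≤ 3 * ‖x‖
      linarith)

noncomputable def equivHilbert : EE 𝕜 ≃L[𝕜] WithLp 2 (V 𝕜 × F 𝕜) :=
  equivProd.trans (WithLp.prodContinuousLinearEquiv 2 𝕜 (V 𝕜) (F 𝕜)).symm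

instance instCompleteSpaceEE : CompleteSpace (EE 𝕜) :=
  (completeSpace_congr (e := (equivProd (𝕜 := 𝕜)).toEquiv)
    (equivProd (𝕜 := 𝕜)).isUniformEmbedding).mpr inferInstance

lemma isClosed_G : IsClosed (G 𝕜 : Set (EE 𝕜)) := by
  have h : (G 𝕜 : Set (EE 𝕜)) = fstC 𝕜 ⁻¹' {0} := by
    ext x
    rfl
  rw [h]
  exact isClosed_singleton.preimage (fstC 𝕜).continuous

lemma finrank_quotient : Module.finrank 𝕜 (EE 𝕜 ⧸ G 𝕜) = 2 := by
  have hsurj : Function.Surjective (fstL 𝕜) := fun y => ⟨mk y 0, rfl⟩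
  have e : (EE 𝕜 ⧸ G 𝕜) ≃ₗ[𝕜] V 𝕜 := (fstL 𝕜).quotKerEquivOfSurjective hsurj
  rw [e.finrank_eq]
  simp

lemma weaklyContinuous_proj : Continuous fun x : WeakSpace 𝕜 (EE 𝕜) =>
    toWeakSpace 𝕜 (EE 𝕜) (proj ((toWeakSpace 𝕜 (EE 𝕜)).symm x)) := by
  apply WeakBilin.continuous_of_continuous_eval
  intro φ
  -- the functional `φ` evaluated on the projection
  have hfst : Continuous fun x : WeakSpace 𝕜 (EE 𝕜) =>
      ((toWeakSpace 𝕜 (EE 𝕜)).symm x).1 := by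
    have h1 : Continuous fun x : WeakSpace 𝕜 (EE 𝕜) =>
        (WithLp.toLp 2 fun i : Fin 2 => ((toWeakSpace 𝕜 (EE 𝕜)).symm x).1 i : V 𝕜) := by
      apply (PiLp.continuous_toLp 2 _).comp
      apply continuous_pi
      intro i
      have h2 := WeakBilin.eval_continuous (topDualPairing 𝕜 (EE 𝕜)).flip
        ((EuclideanSpace.proj i : V 𝕜 →L[𝕜] 𝕜).comp (fstC 𝕜))
      exact h2
    exact h1
  have hval : ∀ x : WeakSpace 𝕜 (EE 𝕜),
      φ (proj ((toWeakSpace 𝕜 (EE 𝕜)).symm x)) =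
        φ ((toWeakSpace 𝕜 (EE 𝕜)).symm x) -
          (φ (mk ((toWeakSpace 𝕜 (EE 𝕜)).symm x).1 0) +
            (φ.comp (inrC 𝕜)) (w ((toWeakSpace 𝕜 (EE 𝕜)).symm x).1)) := by
    intro x
    rw [ContinuousLinearMap.comp_apply, ← map_add, ← map_sub]
    congr 1
    refine Prod.ext ?_ ?_
    · show (0 : V 𝕜) = ((toWeakSpace 𝕜 (EE 𝕜)).symm x).1 -
        (((toWeakSpace 𝕜 (EE 𝕜)).symm x).1 + 0)
      simp
    · show ((toWeakSpace 𝕜 (EE 𝕜)).symm x).2 - w ((toWeakSpace 𝕜 (EE 𝕜)).symm x).1 =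
        ((toWeakSpace 𝕜 (EE 𝕜)).symm x).2 -
          (0 + w ((toWeakSpace 𝕜 (EE 𝕜)).symm x).1)
      simp
  have hinl : Continuous fun y : V 𝕜 => φ (mk y 0) := by
    have h3 : Continuous fun y : V 𝕜 => (equivProd (𝕜 := 𝕜)).symm (y, 0) :=
      (equivProd (𝕜 := 𝕜)).symm.continuous.comp (by fun_prop)
    exact φ.continuous.comp h3
  have hmain : Continuous fun x : WeakSpace 𝕜 (EE 𝕜) =>
      φ ((toWeakSpace 𝕜 (EE 𝕜)).symm x) -
          (φ (mk ((toWeakSpace 𝕜 (EE 𝕜)).symm x).1 0) +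
            (φ.comp (inrC 𝕜)) (w ((toWeakSpace 𝕜 (EE 𝕜)).symm x).1)) := by
    apply Continuous.sub
    · exact WeakBilin.eval_continuous (topDualPairing 𝕜 (EE 𝕜)).flip φ
    · apply Continuous.add
      · exact hinl.comp hfst
      · exact (continuous_clm_w (φ.comp (inrC 𝕜))).comp hfst
  refine hmain.congr fun x => ?_
  exact (hval x).symm

/-- The test points `(1, (2/3) 2^{-n})`. -/
noncomputable def pt (s : ℝ) : V 𝕜 := !₂[(1 : 𝕜), (s : 𝕜)]

lemma continuous_pt : Continuous (pt : ℝ → V 𝕜) := by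
  unfold pt
  apply (PiLp.continuous_toLp 2 _).comp
  apply continuous_pi
  intro i
  fin_cases i
  · exact continuous_const
  · exact RCLike.continuous_ofReal

lemma pt_0 (s : ℝ) : (pt s : V 𝕜) 0 = 1 := rfl
lemma pt_1 (s : ℝ) : (pt s : V 𝕜) 1 = (s : 𝕜) := rfl

lemma norm_pt_le (s : ℝ) (hs : |s| ≤ 1) : ‖(pt s : V 𝕜)‖ ≤ 2 := by
  rw [EuclideanSpace.norm_eq, Fin.sum_univ_two, pt_0, pt_1, RCLike.norm_ofReal, norm_one, sq_abs]
  rw [Real.sqrt_le_left (by norm_num)]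
  have : s ^ 2 ≤ 1 := (sq_le_one_iff_abs_le_one s).mpr hs
  linarith

lemma tent_pt_zero (n : ℕ) : tent n (pt 0 : V 𝕜) = 0 := by
  unfold tent
  rw [pt_0, pt_1]
  simp

lemma w_pt_zero : w (pt 0 : V 𝕜) = 0 := by
  apply w_eq_zero
  rintro ⟨n, hn⟩
  rw [tent_pt_zero] at hn
  exact lt_irrefl _ hn

lemma tent_pt (n : ℕ) : tent n (pt (2 / 3 * (1 / 2) ^ n) : V 𝕜) = 1 / 3 := by
  unfold tent
  rw [pt_0, pt_1, RCLike.norm_ofReal, abs_of_nonneg (by positivity), norm_one]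
  have h1 : (2:ℝ) ^ n * (2 / 3 * (1 / 2) ^ n) = 2 / 3 := by
    have : (2:ℝ) ^ n * (1 / 2) ^ n = 1 := by
      rw [← mul_pow]
      norm_num
    calc (2:ℝ) ^ n * (2 / 3 * (1 / 2) ^ n) = 2 / 3 * ((2:ℝ) ^ n * (1 / 2) ^ n) := by ring
      _ = 2 / 3 := by rw [this, mul_one]
  have h2 : (2:ℝ) ^ (n + 1) * (2 / 3 * (1 / 2) ^ n) = 4 / 3 := by
    calc (2:ℝ) ^ (n + 1) * (2 / 3 * (1 / 2) ^ n) = 2 * ((2:ℝ) ^ n * (2 / 3 * (1 / 2) ^ n)) := by
          ring
      _ = 4 / 3 := by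
          rw [h1]
          norm_num
  rw [h1, h2]
  norm_num

lemma norm_w_pt (n : ℕ) : 1 / 6 ≤ ‖w (pt (2 / 3 * (1 / 2) ^ n) : V 𝕜)‖ := by
  have ht := tent_pt (𝕜 := 𝕜) n
  rw [w_eq_single (n := n) (by rw [ht]; norm_num), lp.norm_single (by norm_num)]
  unfold wc
  rw [pt_0, one_mul, ht, RCLike.norm_ofReal]
  have h0 : |(2 / 3 * (1 / 2) ^ n : ℝ)| ≤ 1 := by
    rw [abs_of_nonneg (by positivity)]
    have : ((1:ℝ) / 2) ^ n ≤ 1 := pow_le_one₀ (by norm_num) (by norm_num)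
    linarith
  have h1 := norm_pt_le (𝕜 := 𝕜) _ h0
  have h2 : 0 < ‖(pt (2 / 3 * (1 / 2) ^ n) : V 𝕜)‖ := by
    have := norm_coord_le (pt (2 / 3 * (1 / 2) ^ n) : V 𝕜) 0
    rw [pt_0, norm_one] at this
    linarith
  rw [abs_of_nonneg (by positivity), le_div_iff₀ h2]
  linarith

lemma not_continuous_proj : ¬ Continuous (proj : EE 𝕜 → EE 𝕜) := by
  intro hc
  -- the curve `s ↦ ((1, s), 0)` is continuous
  have h1 : Continuous fun s : ℝ => (equivProd (𝕜 := 𝕜)).symm (pt s, 0) :=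
    (equivProd (𝕜 := 𝕜)).symm.continuous.comp (continuous_pt.prodMk continuous_const)
  have h2 : Continuous fun s : ℝ => ‖proj ((equivProd (𝕜 := 𝕜)).symm (pt s, 0))‖ :=
    (hc.comp h1).norm
  have hlim : Tendsto (fun n : ℕ => (2 / 3 * (1 / 2) ^ n : ℝ)) atTop (𝓝 0) := by
    have := (tendsto_pow_atTop_nhds_zero_of_lt_one (r := (1 / 2 : ℝ)) (by norm_num)
      (by norm_num)).const_mul (2 / 3)
    simpa using this
  have h3 := (h2.tendsto 0).comp hlim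
  have hp : ∀ s : ℝ, (proj ((equivProd (𝕜 := 𝕜)).symm (pt s, 0))).2 = 0 - w (pt s) :=
    fun s => rfl
  have h4 : ‖proj ((equivProd (𝕜 := 𝕜)).symm (pt 0, 0))‖ = 0 := by
    have h5 : proj ((equivProd (𝕜 := 𝕜)).symm (pt 0, 0)) = (0 : EE 𝕜) := by
      refine Prod.ext rfl ?_
      rw [hp, w_pt_zero, sub_zero]
      rfl
    rw [h5, norm_zero]
  rw [h4] at h3
  have h6 : ∀ n : ℕ, 1 / 6 ≤
      ‖proj ((equivProd (𝕜 := 𝕜)).symm (pt (2 / 3 * (1 / 2) ^ n), 0))‖ := by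
    intro n
    refine (norm_w_pt (𝕜 := 𝕜) n).trans ?_
    have h7 := norm_snd_le' (proj ((equivProd (𝕜 := 𝕜)).symm (pt (2 / 3 * (1 / 2) ^ n), 0)))
    rwa [hp, zero_sub, norm_neg] at h7
  have h8 : (1 / 6 : ℝ) ≤ 0 := ge_of_tendsto' h3 h6
  norm_num at h8

end Pool.Agent.H45.MetricProj
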